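import Pool.Agent.V8H86.TE.Defs

/-!
# Nondeterministic branching programs for the tree evaluation problem

The inputs, the values of the nodes, `rightVar` and `line` are those of `V8H86.TE.Defs`.
-/

namespace Pool.Agent.V8H86.TN

open Pool.Agent.V8H86.TE

/-- A nondeterministic branching program with the set `Q` of states. The state `q` reads the
variable `label q` or nothing; `next q v` is the set of the possible next states, where `v` is the
value of the variable that is read (or `none`). -/
structure NProg (k : ℕ) (Q : Type) where
  start : Q
  accept : Set Q
  label : Q → Option (Var k)
  next : Q → Option (Fin k) → Set Q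

variable {k : ℕ} {Q : Type}

/-- `f 0, ..., f n` are the states of a computation on `J` that starts in the state `q`. -/
def NProg.Path (B : NProg k Q) (J : Var k → Fin k) (q : Q) (f : ℕ → Q) (n : ℕ) : Prop :=
  f 0 = q ∧ ∀ i < n, f (i + 1) ∈ B.next (f i) ((B.label (f i)).map J)

/-- Some computation ends in an accepting state. -/
def NProg.Accepts (B : NProg k Q) (J : Var k → Fin k) : Prop :=
  ∃ f n, B.Path J B.start f n ∧ f n ∈ B.accept

/-- Some computation reaches the state `q`. -/
def NProg.Reaches (B : NProg k Q) (J : Var k → Fin k) (q : Q) : Prop :=
  ∃ f n, B.Path J B.start f n ∧ f n = q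

/-- For every inner node `p`, every child `b :: p` of it and every state `q` that can be reached,
at most `t` different entries of the right line of `p` for `b :: p` can be read by computations
that start in `q` and do not, before, read the variable that gives the value of `b :: p`. -/
def NProg.Frugal (B : NProg k Q) (m t : ℕ) (J : Var k → Fin k) : Prop :=
  ∀ (p : List Bool) (b : Bool) (q : Q), p.length < m → B.Reaches J q →
    {c | ∃ f n, B.Path J q f n ∧ (∀ i < n, B.label (f i) ≠ some (rightVar m J (b :: p))) ∧
      B.label (f n) = some (line m J p b c)}.ncard ≤ t

end Pool.Agent.V8H86.TN
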