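import Pool.Agent.V8H86.TE.Main
import Pool.Agent.V8H86.TN.Defs

/-!
# Critical times for a sequence of reads
-/

namespace Pool.Agent.V8H86.TN

open Pool.Agent.V8H86.TE Finset Function

variable {k : ℕ} {Q : Type}

/-- no lucky reads -/
def Good (A : ℕ → Var k → Prop) (m : ℕ) (J : Var k → Fin k) : Prop :=
  ∀ p : List Bool, p.length < m → ∀ b : Bool, ∀ s, A s (rightVar m J p) →
    ∃ s' < s, A s' (rightVar m J (b :: p))

open Classical in
/-- the critical times -/
noncomputable def crit (A : ℕ → Var k → Prop) (m : ℕ) (J : Var k → Fin k) (s₀ : ℕ) : List Bool → ℕ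
  | [] => s₀
  | b :: p => Nat.findGreatest (fun s => A s (rightVar m J (b :: p))) (crit A m J s₀ p - 1)

section crit

variable {A : ℕ → Var k → Prop} {m : ℕ} {J : Var k → Fin k} {s₀ : ℕ}

theorem crit_at (hg : Good A m J) (h0 : A s₀ (rightVar m J [])) : ∀ p : List Bool, p.length ≤ m →
    A (crit A m J s₀ p) (rightVar m J p) := by
  classical
  intro p
  induction p with
  | nil => intro _; exact h0
  | cons b p ih =>
    intro hp
    rw [List.length_cons] at hp
    obtain ⟨s', h1, h2⟩ := hg p (by omega) b _ (ih (by omega))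
    exact Nat.findGreatest_spec (P := fun s => A s (rightVar m J (b :: p)))
      (n := crit A m J s₀ p - 1) (m := s') (by omega) h2

theorem crit_lt (hg : Good A m J) (h0 : A s₀ (rightVar m J [])) {b : Bool} {p : List Bool}
    (hp : p.length < m) : crit A m J s₀ (b :: p) < crit A m J s₀ p := by
  classical
  obtain ⟨s', h1, h2⟩ := hg p hp b _ (crit_at hg h0 p hp.le)
  have h3 : crit A m J s₀ (b :: p) ≤ crit A m J s₀ p - 1 := Nat.findGreatest_le _
  omega

theorem crit_fresh {b : Bool} {p : List Bool} {r : ℕ} (h1 : crit A m J s₀ (b :: p) < r)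
    (h2 : r < crit A m J s₀ p) : ¬ A r (rightVar m J (b :: p)) := by
  classical
  exact Nat.findGreatest_is_greatest (P := fun s => A s (rightVar m J (b :: p))) h1 (by omega)

theorem crit_mono (hg : Good A m J) (h0 : A s₀ (rightVar m J [])) {p : List Bool} (l : List Bool)
    (hq : (l ++ p).length ≤ m) : crit A m J s₀ (l ++ p) ≤ crit A m J s₀ p := by
  induction l with
  | nil => exact le_rfl
  | cons b l ih =>
    have hq' : (l ++ p).length < m := hq
    exact (crit_lt hg h0 hq').le.trans (ih hq'.le)

theorem walk {c : Bool} {p : List Bool} {s : ℕ} (hs : s ≤ crit A m J s₀ p) (n : ℕ)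
    (hn : crit A m J s₀ (List.replicate n false ++ (c :: p)) < s) :
    ∃ d ≤ n, crit A m J s₀ (pb c d :: pp c p d) < s ∧ s ≤ crit A m J s₀ (pp c p d) := by
  induction n with
  | zero => exact ⟨0, le_rfl, hn, hs⟩
  | succ n ih =>
    rcases lt_or_ge (crit A m J s₀ (List.replicate n false ++ (c :: p))) s with h | h
    · obtain ⟨d, h1, h2, h3⟩ := ih h
      exact ⟨d, by omega, h2, h3⟩
    · exact ⟨n + 1, le_rfl, hn, h⟩

theorem pebbles (hg : Good A m J) (h0 : A s₀ (rightVar m J [])) :
    ∃ (l : List.Vector Bool m) (d : Fin m → Fin m) (s : ℕ), (∀ j, (d j : ℕ) ≤ j) ∧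
      ∀ j, crit A m J s₀ (bt l d j :: pt l d j) < s ∧ s ≤ crit A m J s₀ (pt l d j) := by
  obtain ⟨l, -, hmax⟩ := Set.exists_max_image (Set.univ : Set (List.Vector Bool m))
    (fun l => crit A m J s₀ l.toList) Set.finite_univ ⟨List.Vector.replicate m false, trivial⟩
  have key : ∀ j : Fin m, ∃ d ≤ (j : ℕ),
      crit A m J s₀ (pb (!(l.get j)) d :: pp (!(l.get j)) (l.toList.drop (j + 1)) d) <
        crit A m J s₀ l.toList + 1 ∧
      crit A m J s₀ l.toList + 1 ≤ crit A m J s₀ (pp (!(l.get j)) (l.toList.drop (j + 1)) d) := by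
    intro j
    have hlen : (l.toList.drop (j + 1)).length = m - (j + 1) := by
      rw [List.length_drop, List.Vector.toList_length]
    have hj := j.2
    have h1 : crit A m J s₀ l.toList ≤ crit A m J s₀ (l.toList.drop j) := by
      have h2 := crit_mono hg h0 (p := l.toList.drop j) (l.toList.take j) (by
        rw [List.take_append_drop, List.Vector.toList_length])
      rwa [List.take_append_drop] at h2
    have h2 := crit_lt hg h0 (b := l.get j) (p := l.toList.drop (j + 1)) (by omega)
    rw [← drop_eq] at h2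
    refine walk (by omega) j ?_
    have h3 := hmax ⟨List.replicate j false ++ ((!(l.get j)) :: l.toList.drop (j + 1)), by
      rw [List.length_append, List.length_replicate, List.length_cons, hlen]
      omega⟩ trivial
    exact Nat.lt_succ_of_le h3
  choose d hd1 hd2 using key
  exact ⟨l, fun j => ⟨d j, (hd1 j).trans_lt j.2⟩, _, hd1, hd2⟩

end crit

end Pool.Agent.V8H86.TN
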