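import Pool.Agent.V8H86.TN.Crit

/-!
# Nondeterministic programs: a state, the places and the order of the pebbles leave few
possibilities for their values
-/

namespace Pool.Agent.V8H86.TN

open Pool.Agent.V8H86.TE Finset Function

variable {k : ℕ} {Q : Type}

theorem path_congr {B : NProg k Q} {J J' : Var k → Fin k} {q : Q} {f : ℕ → Q} {n : ℕ}
    (h : B.Path J q f n) (hJ : ∀ i < n, ∀ x, B.label (f i) = some x → J x = J' x) :
    B.Path J' q f n := by
  refine ⟨h.1, fun i hi => ?_⟩
  have h1 := h.2 i hi
  have h2 : (B.label (f i)).map J = (B.label (f i)).map J' := by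
    cases hx : B.label (f i) with
    | none => rfl
    | some x => rw [Option.map_some, Option.map_some, hJ i hi x hx]
  rwa [h2] at h1

/-- the possible values of the pebble `i`, if the pebbles which are before `i` in the order `o` are
known -/
def Cand (B : NProg k Q) (m : ℕ) (q : Q) (β : Fin m → Bool) (π : Fin m → List Bool)
    (o : Fin m → Fin m) (i : Fin m) (J : Var k → Fin k) : Set (Fin k) :=
  {c | ∃ f n, B.Path J q f n ∧
    (∀ r < n, ∀ j, ¬ o j < o i → B.label (f r) ≠ some (rightVar m J (β j :: π j))) ∧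
    B.label (f n) = some (line m J (π i) (β i) c)}

/-- the class of a state, places and an order -/
def Cls (B : NProg k Q) (m t : ℕ) (q : Q) (β : Fin m → Bool) (π : Fin m → List Bool)
    (o : Fin m → Fin m) (J : Var k → Fin k) : Prop :=
  (∀ i j, ((!(β i)) :: π i) <:+ (β j :: π j) → o j < o i) ∧
  (∀ i, nodeValue m J (β i :: π i) ∈ Cand B m q β π o i J) ∧
  ∀ i, (Cand B m q β π o i J).ncard ≤ t

/-- the reads of a computation -/
def Rd (B : NProg k Q) (f : ℕ → Q) (n : ℕ) (s : ℕ) (x : Var k) : Prop :=
  s ≤ n ∧ B.label (f s) = some x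

theorem cls_of_good {B : NProg k Q} {m t : ℕ} {J : Var k → Fin k} {f : ℕ → Q} {n s₀ : ℕ}
    (hp : B.Path J B.start f n) (hg : Good (Rd B f n) m J)
    (h0 : Rd B f n s₀ (rightVar m J [])) (hf : B.Frugal m t J) :
    ∃ (q : Q) (l : List.Vector Bool m) (d o : Fin m → Fin m), Adm (bt l d) (pt l d) ∧
      Cls B m t q (bt l d) (pt l d) o J := by
  classical
  obtain ⟨l, d, s, hd, hc⟩ := pebbles hg h0
  have hadm : Adm (bt l d) (pt l d) := by
    refine ⟨pt_length l hd, fun i j hij => ?_⟩
    rcases lt_or_gt_of_ne hij with h | h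
    · exact ⟨(pt_sep l d h).1, (pt_sep l d h).2.1⟩
    · exact ⟨(pt_sep l d h).1.symm, (pt_sep l d h).2.2⟩
  obtain ⟨β, hβ⟩ : ∃ β, β = bt l d := ⟨_, rfl⟩
  obtain ⟨π, hπ⟩ : ∃ π, π = pt l d := ⟨_, rfl⟩
  obtain ⟨ρ, hρ⟩ : ∃ ρ : Fin m → ℕ, ρ = fun i => crit (Rd B f n) m J s₀ (π i) := ⟨_, rfl⟩
  have h1 : ∀ i, (π i).length < m := by
    intro i
    rw [hπ]
    exact pt_length l hd i
  have hc1 : ∀ i, crit (Rd B f n) m J s₀ (β i :: π i) < s := by
    intro i
    rw [hβ, hπ]
    exact (hc i).1
  have hc2 : ∀ i, s ≤ ρ i := by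
    intro i
    rw [hρ, hπ]
    exact (hc i).2
  have hat : ∀ i, Rd B f n (ρ i) (rightVar m J (π i)) := by
    intro i
    rw [hρ]
    exact crit_at hg h0 _ (h1 i).le
  have hcard : ∀ i, (univ.filter fun j => ρ j < ρ i).card < m := by
    intro i
    have h2 : (univ.filter fun j => ρ j < ρ i).card < (univ : Finset (Fin m)).card := by
      refine Finset.card_lt_card ⟨Finset.filter_subset _ _, fun hsub => ?_⟩
      have := hsub (mem_univ i)
      simp at this
    simpa using h2
  obtain ⟨o, ho⟩ : ∃ o : Fin m → Fin m,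
    o = fun i => ⟨(univ.filter fun j => ρ j < ρ i).card, hcard i⟩ := ⟨_, rfl⟩
  have hlt : ∀ i j, ρ j < ρ i → o j < o i := by
    intro i j hij
    rw [ho]
    refine Fin.mk_lt_mk.2 (Finset.card_lt_card ⟨?_, fun hsub => ?_⟩)
    · intro r hr
      rw [Finset.mem_filter] at hr ⊢
      exact ⟨hr.1, hr.2.trans hij⟩
    · have h2 : j ∈ univ.filter fun r => ρ r < ρ j := hsub (by simpa using hij)
      simp at h2
  refine ⟨f s, l, d, o, hadm, ?_⟩
  rw [← hβ, ← hπ] at hadm ⊢
  have hsub : ∀ i, Cand B m (f s) β π o i J ⊆ {c | ∃ g r, B.Path J (f s) g r ∧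
      (∀ i' < r, B.label (g i') ≠ some (rightVar m J (β i :: π i))) ∧
        B.label (g r) = some (line m J (π i) (β i) c)} := by
    rintro i c ⟨g, r, h2, h3, h4⟩
    exact ⟨g, r, h2, fun i' hi' => h3 i' hi' i (lt_irrefl _), h4⟩
  refine ⟨?_, ?_, ?_⟩
  · intro i j hij
    refine hlt i j ?_
    rcases List.suffix_cons_iff.1 hij with h | h
    · exfalso
      obtain ⟨h3, h4⟩ := List.cons.inj h
      by_cases he : i = j
      · subst he
        cases hb : β i <;> rw [hb] at h3 <;> simp at h3
      · exact (hadm.2 i j he).1 h4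
    · obtain ⟨l', hl'⟩ := h
      have h4 := crit_mono hg h0 (p := (!(β i)) :: π i) l' (by
        rw [hl']
        exact (h1 j).le)
      rw [hl'] at h4
      have h5 := crit_lt hg h0 (b := !(β i)) (h1 i)
      rw [hρ]
      dsimp only
      omega
  · intro i
    have hn := (hat i).1
    have hs := hc2 i
    refine ⟨fun r => f (s + r), ρ i - s, ⟨rfl, fun r hr => ?_⟩, fun r hr j hj => ?_, ?_⟩
    · have h2 := hp.2 (s + r) (by omega)
      exact h2
    · have hij : ρ i ≤ ρ j := by
        by_contra hcon
        exact hj (hlt i j (not_le.1 hcon))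
      have h2 : ¬ Rd B f n (s + r) (rightVar m J (β j :: π j)) := by
        have h3 := hc1 j
        have h4 : s + r < crit (Rd B f n) m J s₀ (π j) := by
          have h5 : ρ j = crit (Rd B f n) m J s₀ (π j) := by rw [hρ]
          omega
        exact crit_fresh (s₀ := s₀) (by omega) h4
      intro h3
      exact h2 ⟨by omega, h3⟩
    · have h2 : s + (ρ i - s) = ρ i := by omega
      dsimp only
      rw [h2, (hat i).2, tv_inner J (h1 i)]
  · intro i
    have hn := (hat i).1
    have hs := hc2 i
    refine le_trans (Set.ncard_le_ncard (hsub i) (Set.toFinite _)) (hf (π i) (β i) (f s) (h1 i) ?_)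
    exact ⟨f, s, ⟨hp.1, fun r hr => hp.2 r (by omega)⟩, rfl⟩

/-- the number of smaller candidates -/
noncomputable def rank (B : NProg k Q) (m : ℕ) (q : Q) (β : Fin m → Bool) (π : Fin m → List Bool)
    (o : Fin m → Fin m) (i : Fin m) (J : Var k → Fin k) : ℕ :=
  {c | c ∈ Cand B m q β π o i J ∧ c < nodeValue m J (β i :: π i)}.ncard

section

variable {B : NProg k Q} {m t : ℕ} {q : Q} {β : Fin m → Bool} {π : Fin m → List Bool}
  {o : Fin m → Fin m}

theorem rank_lt {J : Var k → Fin k} (h : Cls B m t q β π o J) (i : Fin m) :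
    rank B m q β π o i J < t := by
  refine lt_of_lt_of_le (Set.ncard_lt_ncard ?_ (Set.toFinite _)) (h.2.2 i)
  constructor
  · rintro c ⟨hc, _⟩
    exact hc
  · intro hsub
    exact lt_irrefl _ (hsub (h.2.1 i)).2

/-- **Decoding.** -/
theorem decode {J J' : Var k → Fin k} (ha : Adm β π)
    (hJ : ∀ x, J x ≠ J' x → ∃ i, x = rightVar m J (β i :: π i))
    (h : Cls B m t q β π o J) (h' : Cls B m t q β π o J')
    (hr : ∀ i, rank B m q β π o i J = rank B m q β π o i J') : J = J' := by
  classical
  have hloc : ∀ i, rightVar m J (β i :: π i) = rightVar m J' (β i :: π i) := by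
    intro i
    refine tv_congr fun x hx hxn => ?_
    by_contra hne
    obtain ⟨j, rfl⟩ := hJ x hne
    rw [tv_node] at hx hxn
    by_cases hij : i = j
    · exact hxn (by rw [hij])
    · exact (ha.2 i j hij).2 hx
  have key : ∀ N : ℕ, ∀ i, (o i : ℕ) = N →
      J (rightVar m J (β i :: π i)) = J' (rightVar m J (β i :: π i)) := by
    intro N
    induction N using Nat.strong_induction_on with
    | _ N ih =>
      intro i hi
      have hbefore : ∀ j, o j < o i →
          J (rightVar m J (β j :: π j)) = J' (rightVar m J (β j :: π j)) := fun j hj =>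
        ih (o j) (by rw [← hi]; exact hj) j rfl
      have hline : line m J (π i) (β i) = line m J' (π i) (β i) := by
        refine line_congr (nodeValue_congr fun x hx => ?_)
        by_contra hne
        obtain ⟨j, rfl⟩ := hJ x hne
        rw [tv_node] at hx
        exact hne (hbefore j (h.1 i j hx))
      have hcand : Cand B m q β π o i J = Cand B m q β π o i J' := by
        ext c
        constructor
        · rintro ⟨f, n, h1, h2, h3⟩
          refine ⟨f, n, path_congr h1 fun r hr x hx => ?_, fun r hr j hj => ?_, ?_⟩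
          · by_contra hne
            obtain ⟨j, rfl⟩ := hJ x hne
            by_cases hj : o j < o i
            · exact hne (hbefore j hj)
            · exact h2 r hr j hj hx
          · rw [← hloc j]
            exact h2 r hr j hj
          · rw [← hline]
            exact h3
        · rintro ⟨f, n, h1, h2, h3⟩
          refine ⟨f, n, path_congr h1 fun r hr x hx => ?_, fun r hr j hj => ?_, ?_⟩
          · by_contra hne
            obtain ⟨j, rfl⟩ := hJ x fun h4 => hne h4.symm
            by_cases hj : o j < o i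
            · exact hne (hbefore j hj).symm
            · exact h2 r hr j hj (by rw [← hloc j]; exact hx)
          · rw [hloc j]
            exact h2 r hr j hj
          · rw [hline]
            exact h3
      have hmem := h.2.1 i
      have hmem' := h'.2.1 i
      have hri := hr i
      unfold rank at hri
      rw [← hcand] at hmem' hri
      have hval : nodeValue m J (β i :: π i) = nodeValue m J' (β i :: π i) := by
        rcases lt_trichotomy (nodeValue m J (β i :: π i)) (nodeValue m J' (β i :: π i)) with
          hlt | heq | hlt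
        · exfalso
          refine absurd hri (Set.ncard_lt_ncard ⟨?_, fun hsub => ?_⟩ (Set.toFinite _)).ne
          · rintro c ⟨hc1, hc2⟩
            exact ⟨hc1, hc2.trans hlt⟩
          · exact lt_irrefl _ (hsub ⟨hmem, hlt⟩).2
        · exact heq
        · exfalso
          refine absurd hri.symm (Set.ncard_lt_ncard ⟨?_, fun hsub => ?_⟩ (Set.toFinite _)).ne
          · rintro c ⟨hc1, hc2⟩
            exact ⟨hc1, hc2.trans hlt⟩
          · exact lt_irrefl _ (hsub ⟨hmem', hlt⟩).2
      rw [nodeValue_eq, nodeValue_eq, ← hloc i] at hval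
      exact hval
  funext x
  by_contra hne
  obtain ⟨i, rfl⟩ := hJ x hne
  exact hne (key _ i rfl)

end

end Pool.Agent.V8H86.TN
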