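import Pool.Agent.V8H86.TN.Final

/-!
# Nondeterministic programs with errors
-/

namespace Pool.Agent.V8H86.TN

open Pool.Agent.V8H86.TE Finset Function

variable {k : ℕ} {Q : Type} [NeZero k] {m : ℕ}

/-- some accepting computation does not read the variable of the root -/
def Blind (B : NProg k Q) (m : ℕ) (J : Var k → Fin k) : Prop :=
  ∃ f n, B.Path J B.start f n ∧ f n ∈ B.accept ∧
    ∀ i < n, B.label (f i) ≠ some (rightVar m J [])

/-- the input with another value at the root -/
noncomputable def mv (u : Unit → Fin k) (I : Input m k) : Input m k :=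
  shift (place m [] (Nat.zero_le m) I) u I

theorem blind_mv {B : NProg k Q} {I : Input m k} (h : Blind B m (look I)) (u : Unit → Fin k) :
    Blind B m (look (mv u I)) := by
  obtain ⟨f, n, h1, h2, h3⟩ := h
  have ht : rightVar m (look (mv u I)) [] = rightVar m (look I) [] := place_tv _ I u
  refine ⟨f, n, path_congr h1 fun i hi x hx => ?_, h2, fun i hi => ?_⟩
  · symm
    refine place_off (Nat.zero_le m) I u ?_
    rintro rfl
    exact h3 i hi hx
  · rw [ht]
    exact h3 i hi

theorem mv_neg (u : Unit → Fin k) (I : Input m k) : mv (-u) (mv u I) = I := by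
  unfold mv
  rw [place_shift, shift_shift_neg]

theorem blind_iff {B : NProg k Q} {I : Input m k} (u : Unit → Fin k) :
    Blind B m (look (mv u I)) ↔ Blind B m (look I) := by
  refine ⟨fun h => ?_, fun h => blind_mv h u⟩
  have h1 := blind_mv h (-u)
  rwa [mv_neg] at h1

theorem value_mv (u : Unit → Fin k) (I : Input m k) :
    nodeValue m (look (mv u I)) [] = nodeValue m (look I) [] + u () := by
  have ht : rightVar m (look (mv u I)) [] = rightVar m (look I) [] := place_tv _ I u
  rw [nodeValue_eq, nodeValue_eq, ht]
  exact place_on _ I u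

theorem sum_mv (S : Input m k → Prop) [DecidablePred S] :
    (univ.filter S).card * k = ∑ I, (univ.filter fun u : Unit → Fin k => S (mv u I)).card := by
  have h1 : ∀ u : Unit → Fin k, (univ.filter fun I => S (mv u I)).card =
      (univ.filter S).card := by
    intro u
    refine Finset.card_bij' (fun I _ => mv u I) (fun I _ => mv (-u) I) ?_ ?_ ?_ ?_
    · intro I hI
      simpa using hI
    · intro I hI
      rw [Finset.mem_filter] at hI ⊢
      refine ⟨mem_univ _, ?_⟩
      have h2 := mv_neg (-u) I
      rw [neg_neg] at h2
      rw [h2]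
      exact hI.2
    · intro I _
      exact mv_neg u I
    · intro I _
      have h2 := mv_neg (-u) I
      rwa [neg_neg] at h2
  have h2 : ∑ u : Unit → Fin k, (univ.filter fun I => S (mv u I)).card =
      ∑ I, (univ.filter fun u : Unit → Fin k => S (mv u I)).card := by
    simp only [Finset.card_filter]
    exact Finset.sum_comm
  rw [← h2, Finset.sum_congr rfl fun u _ => h1 u, Finset.sum_const, Finset.card_univ, smul_eq_mul,
    Fintype.card_fun, mul_comm]
  simp

theorem card_blind (B : NProg k Q) (G : Fin k → Prop) [DecidablePred G]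
    [DecidablePred fun I : Input m k => Blind B m (look I)] :
    (univ.filter fun I : Input m k => Blind B m (look I) ∧ G (nodeValue m (look I) [])).card * k =
      (univ.filter G).card * (univ.filter fun I : Input m k => Blind B m (look I)).card := by
  rw [sum_mv, Finset.card_filter (fun I : Input m k => Blind B m (look I)), Finset.mul_sum]
  refine Finset.sum_congr rfl fun I _ => ?_
  simp only [blind_iff, value_mv]
  by_cases h : Blind B m (look I)
  · simp only [h, true_and, if_true, mul_one]
    refine Finset.card_bij (fun u _ => nodeValue m (look I) [] + u ()) ?_ ?_ ?_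
    · intro u hu
      simpa using hu
    · intro u _ v _ huv
      funext d
      exact add_left_cancel huv
    · intro c hc
      refine ⟨fun _ => c - nodeValue m (look I) [], ?_, ?_⟩
      · simpa using hc
      · simp
  · simp [h]

open Classical in
/-- the blind inputs with the property are balanced by wrongly accepted inputs -/
theorem blind_balance (B : NProg k Q) (g : Fin k → Prop) {w : ℕ} (hw : {c | g c}.ncard = w) :
    ((k : ℝ) - w) *
        ((univ.filter fun I : Input m k => Blind B m (look I) ∧ g (nodeValue m (look I) [])).card : ℝ)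
      ≤ w * ((univ.filter fun I : Input m k =>
        B.Accepts (look I) ∧ ¬ g (nodeValue m (look I) [])).card : ℝ) := by
  have hw1 : (univ.filter g).card = w := by
    rw [← hw, Set.ncard_eq_toFinset_card']
    congr 1
    ext c
    simp
  have hw2 : ((univ.filter fun c => ¬ g c).card : ℝ) = k - w := by
    have h := Finset.card_filter_add_card_filter_not (s := (univ : Finset (Fin k))) g
    rw [hw1, Finset.card_univ, Fintype.card_fin] at h
    have h' : (w : ℝ) + ((univ.filter fun c => ¬ g c).card : ℝ) = k := by exact_mod_cast h
    linarith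
  have hk : (0 : ℝ) < k := by
    have : 0 < k := Nat.pos_of_ne_zero (NeZero.ne k)
    exact_mod_cast this
  have e1 := card_blind (m := m) B g
  have e2 := card_blind (m := m) B (fun c => ¬ g c)
  rw [hw1] at e1
  have e1' : ((univ.filter fun I : Input m k => Blind B m (look I) ∧
      g (nodeValue m (look I) [])).card : ℝ) * k =
      w * ((univ.filter fun I : Input m k => Blind B m (look I)).card : ℝ) := by exact_mod_cast e1
  have e2' : ((univ.filter fun I : Input m k => Blind B m (look I) ∧
      ¬ g (nodeValue m (look I) [])).card : ℝ) * k =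
      ((univ.filter fun c => ¬ g c).card : ℝ) *
        ((univ.filter fun I : Input m k => Blind B m (look I)).card : ℝ) := by exact_mod_cast e2
  rw [hw2] at e2'
  have h3 : ((univ.filter fun I : Input m k => Blind B m (look I) ∧
      ¬ g (nodeValue m (look I) [])).card : ℝ) ≤ ((univ.filter fun I : Input m k =>
        B.Accepts (look I) ∧ ¬ g (nodeValue m (look I) [])).card : ℝ) := by
    have h4 : (univ.filter fun I : Input m k => Blind B m (look I) ∧
        ¬ g (nodeValue m (look I) [])) ⊆ univ.filter fun I : Input m k =>
          B.Accepts (look I) ∧ ¬ g (nodeValue m (look I) []) := by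
      intro I hI
      rw [Finset.mem_filter] at hI ⊢
      obtain ⟨f, n, h5, h6, _⟩ := hI.2.1
      exact ⟨hI.1, ⟨f, n, h5, h6⟩, hI.2.2⟩
    exact_mod_cast Finset.card_le_card h4
  have hw0 : (0 : ℝ) ≤ w := Nat.cast_nonneg w
  refine le_of_mul_le_mul_right ?_ hk
  calc ((k : ℝ) - w) * ((univ.filter fun I : Input m k => Blind B m (look I) ∧
        g (nodeValue m (look I) [])).card : ℝ) * k
      = w * (((univ.filter fun I : Input m k => Blind B m (look I) ∧
          ¬ g (nodeValue m (look I) [])).card : ℝ) * k) := by
        rw [mul_assoc, e1', e2']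
        ring
    _ ≤ w * (((univ.filter fun I : Input m k =>
        B.Accepts (look I) ∧ ¬ g (nodeValue m (look I) [])).card : ℝ) * k) :=
        mul_le_mul_of_nonneg_left (mul_le_mul_of_nonneg_right h3 hk.le) hw0
    _ = _ := by ring

/-- **The main theorem with errors.** -/
theorem main_err [Fintype Q] (B : NProg k Q) (g : Fin k → Prop) {w : ℕ}
    (hw : {c | g c}.ncard = w) (m t : ℕ) :
    ((k : ℝ) - w) * Nat.card {I : Input m k // B.Accepts (look I) ∧ B.Frugal m t (look I) ∧
        g (nodeValue m (look I) [])} ≤
      w * Nat.card {I : Input m k // B.Accepts (look I) ∧ ¬ g (nodeValue m (look I) [])} +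
      ((k : ℝ) - w) * (2 ^ (m + 1) * t / k + Fintype.card Q * (2 * m ^ 2 * t / k) ^ m) *
        Nat.card (Input m k) := by
  classical
  have hwk : (w : ℝ) ≤ k := by
    have h : w ≤ k := by
      rw [← hw]
      refine (Set.ncard_le_ncard (Set.subset_univ _) (Set.toFinite _)).trans ?_
      rw [Set.ncard_univ, Nat.card_eq_fintype_card, Fintype.card_fin]
    exact_mod_cast h
  have h1 := blind_balance (m := m) B g hw
  have h2 : ((univ.filter fun I : Input m k => (B.Accepts (look I) ∧ B.Frugal m t (look I) ∧
      g (nodeValue m (look I) [])) ∧ ¬ Blind B m (look I)).card : ℝ) ≤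
      (2 ^ (m + 1) * t / k + Fintype.card Q * (2 * m ^ 2 * t / k) ^ m) *
        Fintype.card (Input m k) := by
    refine main_gen B m t _ ?_
    rintro I ⟨⟨⟨f, n, hp, ha⟩, hf, -⟩, hb⟩
    have h3 : ∃ s < n, B.label (f s) = some (rightVar m (look I) []) := by
      by_contra hcon
      push Not at hcon
      exact hb ⟨f, n, hp, ha, hcon⟩
    obtain ⟨s₀, hs₀, hr⟩ := h3
    exact cover_of_reads hp hs₀ hr hf
  have h3 : ((univ.filter fun I : Input m k => B.Accepts (look I) ∧ B.Frugal m t (look I) ∧
      g (nodeValue m (look I) [])).card : ℝ) ≤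
      ((univ.filter fun I : Input m k => Blind B m (look I) ∧
        g (nodeValue m (look I) [])).card : ℝ) +
      ((univ.filter fun I : Input m k => (B.Accepts (look I) ∧ B.Frugal m t (look I) ∧
        g (nodeValue m (look I) [])) ∧ ¬ Blind B m (look I)).card : ℝ) := by
    have h4 : (univ.filter fun I : Input m k => B.Accepts (look I) ∧ B.Frugal m t (look I) ∧
        g (nodeValue m (look I) [])) ⊆ (univ.filter fun I : Input m k => Blind B m (look I) ∧
        g (nodeValue m (look I) [])) ∪ (univ.filter fun I : Input m k =>
          (B.Accepts (look I) ∧ B.Frugal m t (look I) ∧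
            g (nodeValue m (look I) [])) ∧ ¬ Blind B m (look I)) := by
      intro I hI
      rw [Finset.mem_union, Finset.mem_filter, Finset.mem_filter]
      rw [Finset.mem_filter] at hI
      by_cases hb : Blind B m (look I)
      · exact Or.inl ⟨hI.1, hb, hI.2.2.2⟩
      · exact Or.inr ⟨hI.1, hI.2, hb⟩
    have h5 := (Finset.card_le_card h4).trans (Finset.card_union_le _ _)
    exact_mod_cast h5
  rw [Nat.card_eq_fintype_card, Nat.card_eq_fintype_card, Nat.card_eq_fintype_card,
    Fintype.card_subtype, Fintype.card_subtype]
  have h6 : (0 : ℝ) ≤ (k : ℝ) - w := by linarith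
  have h7 := mul_le_mul_of_nonneg_left h3 h6
  have h8 := mul_le_mul_of_nonneg_left h2 h6
  rw [mul_add] at h7
  rw [mul_assoc]
  linarith

end Pool.Agent.V8H86.TN
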