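import Pool.Agent.V8H86.TN.Main

/-!
# Consequences of the main theorem for nondeterministic programs
-/

namespace Pool.Agent.V8H86.TN

open Pool.Agent.V8H86.TE Finset Function

variable {k : ℕ} {Q : Type}

theorem path_append {B : NProg k Q} {J : Var k → Fin k} {q : Q} {f g : ℕ → Q} {n r : ℕ}
    (hf : B.Path J q f n) (hg : B.Path J (f n) g r) :
    B.Path J q (fun i => if i ≤ n then f i else g (i - n)) (n + r) := by
  refine ⟨by simpa using hf.1, fun i hi => ?_⟩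
  dsimp only
  rcases lt_trichotomy i n with h | h | h
  · rw [if_pos (show i + 1 ≤ n by omega), if_pos (show i ≤ n by omega)]
    exact hf.2 i h
  · subst h
    rw [if_neg (show ¬ i + 1 ≤ i by omega), if_pos (le_refl i)]
    have h1 := hg.2 0 (by omega)
    rw [hg.1] at h1
    have h2 : i + 1 - i = 0 + 1 := by omega
    rw [h2]
    exact h1
  · rw [if_neg (show ¬ i + 1 ≤ n by omega), if_neg (show ¬ i ≤ n by omega)]
    have h1 := hg.2 (i - n) (by omega)
    have h2 : i + 1 - n = i - n + 1 := by omega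
    rw [h2]
    exact h1

/-- few entries of the right lines are read by all computations together -/
theorem frugal_of_total {B : NProg k Q} {J : Var k → Fin k} {m t : ℕ}
    (h : ∀ (p : List Bool) (b : Bool), p.length < m →
      {c | ∃ f n, B.Path J B.start f n ∧ B.label (f n) = some (line m J p b c)}.ncard ≤ t) :
    B.Frugal m t J := by
  rintro p b q hp ⟨f, n, hf, rfl⟩
  refine le_trans (Set.ncard_le_ncard ?_ (Set.toFinite _)) (h p b hp)
  rintro c ⟨g, r, hg, _, hl⟩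
  refine ⟨_, _, path_append hf hg, ?_⟩
  rcases Nat.eq_zero_or_pos r with h0 | h0
  · subst h0
    rw [if_pos (by omega), Nat.add_zero, ← hg.1]
    exact hl
  · rw [if_neg (by omega)]
    have h2 : n + r - n = r := by omega
    rw [h2]
    exact hl

variable [NeZero k]

theorem main' [Fintype Q] (B : NProg k Q) (g : Fin k → Prop) (hg : ∃ c, ¬ g c) (m t : ℕ)
    (hB : ∀ I : Input m k, B.Accepts (look I) → g (nodeValue m (look I) [])) :
    (Nat.card {I : Input m k // B.Accepts (look I) ∧ B.Frugal m t (look I)} : ℝ) ≤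
      (2 ^ (m + 1) * t / k + Fintype.card Q * (2 * m ^ 2 * t / k) ^ m) *
        Nat.card (Input m k) := by
  classical
  have h := main B g hg m t hB
  rw [Nat.card_eq_fintype_card, Nat.card_eq_fintype_card, Fintype.card_subtype]
  exact h

/-- programs that accept a fraction `δ` of the inputs -/
theorem main_adv [Fintype Q] (B : NProg k Q) (g : Fin k → Prop) (hg : ∃ c, ¬ g c) (m t : ℕ)
    (hB : ∀ I : Input m k, B.Accepts (look I) → g (nodeValue m (look I) []))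
    (hm : 0 < m) (δ : ℝ) (hk : 2 ^ (m + 2) * t ≤ δ * k)
    (hA : δ * Nat.card (Input m k) ≤
      Nat.card {I : Input m k // B.Accepts (look I) ∧ B.Frugal m t (look I)}) :
    δ * ((k : ℝ) / (2 * m ^ 2 * t)) ^ m ≤ 2 * Fintype.card Q := by
  have h := hA.trans (main' B g hg m t hB)
  have hN : (0 : ℝ) < Nat.card (Input m k) := by
    have : 0 < Nat.card (Input m k) := Nat.card_pos
    exact_mod_cast this
  have h1 := le_of_mul_le_mul_right h hN
  have hk0 : (0 : ℝ) < k := by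
    have : 0 < k := Nat.pos_of_ne_zero (NeZero.ne k)
    exact_mod_cast this
  rcases Nat.eq_zero_or_pos t with ht | ht
  · rw [ht, Nat.cast_zero, mul_zero, div_zero, zero_pow hm.ne', mul_zero]
    positivity
  have h2 : (2 : ℝ) ^ (m + 1) * t / k ≤ δ / 2 := by
    rw [div_le_div_iff₀ hk0 (by norm_num)]
    calc (2 : ℝ) ^ (m + 1) * t * 2 = 2 ^ (m + 2) * t := by ring
      _ ≤ δ * k := hk
  have h4 : δ / 2 ≤ Fintype.card Q * (2 * m ^ 2 * t / k) ^ m := by linarith
  have hm0 : (0 : ℝ) < m := by exact_mod_cast hm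
  have ht0 : (0 : ℝ) < t := by exact_mod_cast ht
  have h5 : ((k : ℝ) / (2 * m ^ 2 * t)) ^ m * (2 * m ^ 2 * t / k) ^ m = 1 := by
    rw [← mul_pow]
    have : (k : ℝ) / (2 * m ^ 2 * t) * (2 * m ^ 2 * t / k) = 1 := by field_simp
    rw [this, one_pow]
  have h6 : (0 : ℝ) ≤ ((k : ℝ) / (2 * m ^ 2 * t)) ^ m := by positivity
  have h7 := mul_le_mul_of_nonneg_left h4 h6
  rw [mul_left_comm, h5, mul_one] at h7
  linarith

theorem two_mul_le_two_pow {m : ℕ} (hm : 0 < m) : 2 * m ≤ 2 ^ m := by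
  obtain ⟨n, rfl⟩ := Nat.exists_eq_succ_of_ne_zero hm.ne'
  have h : n < 2 ^ n := Nat.lt_two_pow_self
  rw [Nat.succ_eq_add_one, pow_succ]
  omega

theorem two_mul_sq_le (m : ℕ) : 2 * m ^ 2 ≤ 2 ^ (2 * m) := by
  rcases Nat.eq_zero_or_pos m with h | h
  · subst h
    norm_num
  · have h1 := two_mul_le_two_pow h
    calc 2 * m ^ 2 ≤ (2 * m) * (2 * m) := by nlinarith
      _ ≤ 2 ^ m * 2 ^ m := Nat.mul_le_mul h1 h1
      _ = 2 ^ (2 * m) := by rw [← pow_add]; congr 1; ring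

/-- quasi-polynomially many states are needed for tables of polynomial size -/
theorem main_power [Fintype Q] (B : NProg k Q) (g : Fin k → Prop) (hg : ∃ c, ¬ g c)
    (m t d e : ℕ) (hB : ∀ I : Input m k, B.Accepts (look I) → g (nodeValue m (look I) []))
    (hk : k = 2 ^ ((d + e + 2) * m)) (ht : t = 2 ^ (d * m))
    (hQ : 2 ^ m * Fintype.card Q ≤ 2 ^ (e * m ^ 2)) :
    (Nat.card {I : Input m k // B.Accepts (look I) ∧ B.Frugal m t (look I)} : ℝ) ≤
      3 / 2 ^ m * Nat.card (Input m k) := by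
  refine (main' B g hg m t hB).trans (mul_le_mul_of_nonneg_right ?_ (Nat.cast_nonneg _))
  have hkR : (k : ℝ) = 2 ^ (d * m) * 2 ^ (e * m) * 2 ^ (2 * m) := by
    rw [hk]
    push_cast
    rw [← pow_add, ← pow_add]
    congr 1
    ring
  have htR : (t : ℝ) = 2 ^ (d * m) := by
    rw [ht]
    push_cast
    rfl
  have hd : (0 : ℝ) < 2 ^ (d * m) := by positivity
  have he' : (0 : ℝ) < 2 ^ (e * m) := by positivity
  have hm' : (0 : ℝ) < 2 ^ m := by positivity
  have h1 : (2 : ℝ) ^ (m + 1) * t / k ≤ 2 / 2 ^ m := by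
    rw [hkR, htR, div_le_div_iff₀ (by positivity) hm']
    have h2 : (1 : ℝ) ≤ 2 ^ (e * m) := one_le_pow₀ (by norm_num)
    have h3 : (2 : ℝ) ^ (m + 1) * 2 ^ (d * m) * 2 ^ m = 2 * (2 ^ (d * m) * 2 ^ (2 * m)) := by
      rw [pow_succ, two_mul m, pow_add]
      ring
    rw [h3]
    have h4 : (0 : ℝ) ≤ 2 * (2 ^ (d * m) * 2 ^ (2 * m)) := by positivity
    calc (2 : ℝ) * (2 ^ (d * m) * 2 ^ (2 * m)) = 2 * (2 ^ (d * m) * 2 ^ (2 * m)) * 1 := by ring
      _ ≤ 2 * (2 ^ (d * m) * 2 ^ (2 * m)) * 2 ^ (e * m) := mul_le_mul_of_nonneg_left h2 h4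
      _ = 2 * (2 ^ (d * m) * 2 ^ (e * m) * 2 ^ (2 * m)) := by ring
  have h4 : (2 * m ^ 2 * t / k : ℝ) ≤ 1 / 2 ^ (e * m) := by
    rw [hkR, htR, div_le_div_iff₀ (by positivity) he', one_mul]
    have h5 : ((2 * m ^ 2 : ℕ) : ℝ) ≤ ((2 ^ (2 * m) : ℕ) : ℝ) := by exact_mod_cast two_mul_sq_le m
    push_cast at h5
    calc (2 : ℝ) * m ^ 2 * 2 ^ (d * m) * 2 ^ (e * m) =
        2 * m ^ 2 * (2 ^ (d * m) * 2 ^ (e * m)) := by ring
      _ ≤ 2 ^ (2 * m) * (2 ^ (d * m) * 2 ^ (e * m)) := mul_le_mul_of_nonneg_right h5 (by positivity)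
      _ = 2 ^ (d * m) * 2 ^ (e * m) * 2 ^ (2 * m) := by ring
  have h6 : (2 * m ^ 2 * t / k : ℝ) ^ m ≤ 1 / 2 ^ (e * m ^ 2) := by
    calc (2 * m ^ 2 * t / k : ℝ) ^ m ≤ (1 / 2 ^ (e * m)) ^ m :=
          pow_le_pow_left₀ (by positivity) h4 m
      _ = 1 / 2 ^ (e * m ^ 2) := by
        rw [div_pow, one_pow, ← pow_mul]
        congr 2
        ring
  have h7 : (2 : ℝ) ^ m * Fintype.card Q ≤ 2 ^ (e * m ^ 2) := by exact_mod_cast hQ
  have h8 : (Fintype.card Q : ℝ) * (2 * m ^ 2 * t / k) ^ m ≤ 1 / 2 ^ m := by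
    calc (Fintype.card Q : ℝ) * (2 * m ^ 2 * t / k) ^ m ≤
          Fintype.card Q * (1 / 2 ^ (e * m ^ 2)) :=
        mul_le_mul_of_nonneg_left h6 (Nat.cast_nonneg _)
      _ ≤ 1 / 2 ^ m := by
        rw [mul_one_div, div_le_div_iff₀ (by positivity) hm', one_mul]
        linarith
  have h9 : (3 : ℝ) / 2 ^ m = 2 / 2 ^ m + 1 / 2 ^ m := by ring
  rw [h9]
  exact add_le_add h1 h8

end Pool.Agent.V8H86.TN
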