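import Pool.Agent.V8H86.TN.Decode

/-!
# The main theorem for nondeterministic programs
-/

namespace Pool.Agent.V8H86.TN

open Pool.Agent.V8H86.TE Finset Function

variable {k : ℕ} {Q : Type} [NeZero k] {m : ℕ}

/-- a lucky read -/
def Bad (B : NProg k Q) (m t : ℕ) (b : Bool) (p : List Bool) (J : Var k → Fin k) : Prop :=
  B.Frugal m t J ∧ ∃ f n, B.Path J B.start f n ∧ B.label (f n) = some (rightVar m J p) ∧
    ∀ i < n, B.label (f i) ≠ some (rightVar m J (b :: p))

open Classical in
theorem count_bad (B : NProg k Q) (t : ℕ) (b : Bool) {p : List Bool} (hp : p.length < m) :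
    (univ.filter fun I : Input m k => Bad B m t b p (look I)).card * k ≤
      t * Fintype.card (Input m k) := by
  have hn : (b :: p).length ≤ m := hp
  have h := count (place m (b :: p) hn) (place_shift hn)
    (fun I : Input m k => Bad B m t b p (look I)) t ?_
  · simpa using h
  intro I
  obtain ⟨τ, hτ⟩ : ∃ τ, τ = rightVar m (look I) (b :: p) := ⟨_, rfl⟩
  obtain ⟨F, hF⟩ : ∃ F : (Unit → Fin k) → Var k → Fin k,
    F = fun u => look (shift (place m (b :: p) hn I) u I) := ⟨_, rfl⟩
  have t1 : ∀ u, rightVar m (F u) (b :: p) = τ := by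
    intro u
    rw [hF, hτ]
    exact place_tv hn I u
  have e1 : ∀ u, F u τ = look I τ + u () := by
    intro u
    rw [hF, hτ]
    exact place_on hn I u
  have e3 : ∀ u v x, x ≠ τ → F u x = F v x := by
    intro u v x hx
    rw [hτ] at hx
    rw [hF]
    dsimp only
    rw [place_off hn I u hx, place_off hn I v hx]
  have hset : {u : Unit → Fin k | Bad B m t b p (look (shift (place m (b :: p) hn I) u I))} =
      {u | Bad B m t b p (F u)} := by rw [hF]
  rw [hset]
  rcases Set.eq_empty_or_nonempty {u : Unit → Fin k | Bad B m t b p (F u)} with h0 | ⟨u₀, hu₀⟩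
  · rw [h0, Set.ncard_empty]
    exact Nat.zero_le _
  have hbound := hu₀.1 p b B.start hp
    ⟨fun _ => B.start, 0, ⟨rfl, fun i hi => absurd hi (Nat.not_lt_zero i)⟩, rfl⟩
  refine le_trans (Set.ncard_le_ncard_of_injOn (fun u => F u τ) ?_ ?_ (Set.toFinite _)) hbound
  · rintro u ⟨-, f, n, h1, h2, h3⟩
    have hsib : line m (F u) p b = line m (F u₀) p b := by
      refine line_congr (nodeValue_congr fun x hx => e3 u u₀ x ?_)
      rintro rfl
      rw [hτ, tv_node] at hx
      have h4 := (List.cons.inj (hx.eq_of_length (by simp))).1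
      cases b <;> simp at h4
    refine ⟨f, n, path_congr h1 fun i hi x hx => e3 u u₀ x ?_, fun i hi => ?_, ?_⟩
    · rintro rfl
      exact h3 i hi (by rw [t1]; exact hx)
    · rw [t1, ← t1 u]
      exact h3 i hi
    · have h4 : F u τ = nodeValue m (F u) (b :: p) := by rw [nodeValue_eq, t1]
      rw [h2, ← hsib, h4, ← tv_inner (F u) hp]
  · intro u _ v _ huv
    dsimp only at huv
    rw [e1, e1] at huv
    funext d
    exact add_left_cancel huv

open Classical in
theorem count_cls (B : NProg k Q) (t : ℕ) (q : Q) {β : Fin m → Bool} {π : Fin m → List Bool}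
    (o : Fin m → Fin m) (ha : Adm β π) :
    (univ.filter fun I : Input m k => Cls B m t q β π o (look I)).card * k ^ m ≤
      t ^ m * Fintype.card (Input m k) := by
  have hn : ∀ i, (β i :: π i).length ≤ m := fun i => ha.1 i
  obtain ⟨loc, hloc⟩ : ∃ loc : Input m k → Fin m → {x : Var k // x.Ok m},
    loc = fun I i => ⟨rightVar m (look I) (β i :: π i), tv_ok _ (hn i)⟩ := ⟨_, rfl⟩
  have hlv : ∀ I i, (loc I i).1 = rightVar m (look I) (β i :: π i) := fun I i => by rw [hloc]
  have htv : ∀ I u i, rightVar m (look (shift (loc I) u I)) (β i :: π i) =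
      rightVar m (look I) (β i :: π i) := by
    intro I u i
    refine tv_congr fun x hx hxn => look_shift_off _ _ _ fun j h => ?_
    rw [hlv] at h
    rw [← h, tv_node] at hx hxn
    by_cases hij : i = j
    · exact hxn (by rw [hij])
    · exact (ha.2 i j hij).2 hx
  have hfix : ∀ I u, loc (shift (loc I) u I) = loc I := by
    intro I u
    funext i
    refine Subtype.ext ?_
    rw [hlv, hlv]
    exact htv I u i
  have hinj : ∀ I, Injective (loc I) := by
    intro I i j hij
    by_contra hne
    have h1 : (loc I i).1.node = (loc I j).1.node := by rw [hij]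
    rw [hlv, hlv, tv_node, tv_node] at h1
    exact (ha.2 i j hne).1 (List.cons.inj h1).2
  have h := count loc hfix (fun I : Input m k => Cls B m t q β π o (look I)) (t ^ m) ?_
  · simpa using h
  intro I
  have hcard : (t ^ m) = ((Fintype.piFinset fun _ : Fin m => range t : Finset (Fin m → ℕ)) :
      Set (Fin m → ℕ)).ncard := by
    rw [Set.ncard_coe_finset, Fintype.card_piFinset]
    simp
  rw [hcard]
  refine Set.ncard_le_ncard_of_injOn
    (fun u i => rank B m q β π o i (look (shift (loc I) u I))) ?_ ?_ (Finset.finite_toSet _)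
  · intro u hu
    simp only [Finset.mem_coe, Fintype.mem_piFinset, Finset.mem_range]
    exact fun i => rank_lt hu i
  · intro u hu v hv huv
    have h1 : look (shift (loc I) u I) = look (shift (loc I) v I) := by
      refine decode ha ?_ hu hv fun i => congrFun huv i
      intro x hx
      by_contra hcon
      push Not at hcon
      apply hx
      rw [look_shift_off _ _ _ fun i h => hcon i (by rw [htv, ← hlv, h]),
        look_shift_off _ _ _ fun i h => hcon i (by rw [htv, ← hlv, h])]
    funext i
    have h2 := congrFun h1 (loc I i).1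
    rw [look_shift_on _ (hinj I), look_shift_on _ (hinj I)] at h2
    exact add_left_cancel h2

/-- every accepting computation reads the variable of the root -/
theorem reads_root (B : NProg k Q) (g : Fin k → Prop) (hg : ∃ c, ¬ g c)
    (hB : ∀ I : Input m k, B.Accepts (look I) → g (nodeValue m (look I) [])) {I : Input m k}
    {f : ℕ → Q} {n : ℕ} (hp : B.Path (look I) B.start f n) (ha : f n ∈ B.accept) :
    ∃ s < n, B.label (f s) = some (rightVar m (look I) []) := by
  by_contra hcon
  push Not at hcon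
  obtain ⟨c, hc⟩ := hg
  have hn : ([] : List Bool).length ≤ m := Nat.zero_le m
  obtain ⟨u, hu⟩ : ∃ u : Unit → Fin k, u = fun _ => c - look I (rightVar m (look I) []) := ⟨_, rfl⟩
  have h1 : nodeValue m (look (shift (place m [] hn I) u I)) [] = c := by
    rw [nodeValue_eq, place_tv hn I u, place_on hn I u, hu]
    exact add_sub_cancel _ _
  refine hc ?_
  rw [← h1]
  refine hB _ ⟨f, n, path_congr hp fun i hi x hx => ?_, ha⟩
  rw [place_off hn I u]
  rintro rfl
  exact hcon i hi hx

omit [NeZero k] in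
theorem cover_of_reads {B : NProg k Q} {t : ℕ} {J : Var k → Fin k} {f : ℕ → Q} {n s₀ : ℕ}
    (hp : B.Path J B.start f n) (hs₀ : s₀ < n) (hr : B.label (f s₀) = some (rightVar m J []))
    (h2 : B.Frugal m t J) :
    (∃ b, ∃ p ∈ inner m, Bad B m t b p J) ∨
      ∃ (q : Q) (l : List.Vector Bool m) (d o : Fin m → Fin m), Adm (bt l d) (pt l d) ∧
        Cls B m t q (bt l d) (pt l d) o J := by
  by_cases h4 : ∃ b, ∃ p ∈ inner m, Bad B m t b p J
  · exact Or.inl h4
  · right
    refine cls_of_good hp ?_ ⟨hs₀.le, hr⟩ h2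
    rintro p hpl b s ⟨hs, hs'⟩
    by_contra hcon
    push Not at hcon
    exact h4 ⟨b, p, mem_inner.2 hpl, h2, f, s, ⟨hp.1, fun i hi => hp.2 i (by omega)⟩, hs',
      fun i hi h5 => hcon i hi ⟨by omega, h5⟩⟩

theorem cover {B : NProg k Q} {g : Fin k → Prop} {t : ℕ} (hg : ∃ c, ¬ g c)
    (hB : ∀ I : Input m k, B.Accepts (look I) → g (nodeValue m (look I) [])) {I : Input m k}
    (h1 : B.Accepts (look I)) (h2 : B.Frugal m t (look I)) :
    (∃ b, ∃ p ∈ inner m, Bad B m t b p (look I)) ∨
      ∃ (q : Q) (l : List.Vector Bool m) (d o : Fin m → Fin m), Adm (bt l d) (pt l d) ∧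
        Cls B m t q (bt l d) (pt l d) o (look I) := by
  obtain ⟨f, n, hp, ha⟩ := h1
  obtain ⟨s₀, hs₀, hr⟩ := reads_root B g hg hB hp ha
  exact cover_of_reads hp hs₀ hr h2

open Classical in
theorem main_gen [Fintype Q] (B : NProg k Q) (m t : ℕ) (S : Input m k → Prop) [DecidablePred S]
    (hS : ∀ I, S I → (∃ b, ∃ p ∈ inner m, Bad B m t b p (look I)) ∨
      ∃ (q : Q) (l : List.Vector Bool m) (d o : Fin m → Fin m), Adm (bt l d) (pt l d) ∧
        Cls B m t q (bt l d) (pt l d) o (look I)) :
    ((univ.filter S).card : ℝ) ≤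
      (2 ^ (m + 1) * t / k + Fintype.card Q * (2 * m ^ 2 * t / k) ^ m) *
        Fintype.card (Input m k) := by
  obtain ⟨N, hN⟩ : ∃ N, N = Fintype.card (Input m k) := ⟨_, rfl⟩
  obtain ⟨A1, hA1⟩ : ∃ A1 : Bool × List Bool → Finset (Input m k), A1 = fun y =>
    univ.filter fun I : Input m k => Bad B m t y.1 y.2 (look I) := ⟨_, rfl⟩
  obtain ⟨A2, hA2⟩ : ∃ A2 : Q × List.Vector Bool m × (Fin m → Fin m) × (Fin m → Fin m) →
      Finset (Input m k),
    A2 = fun y => univ.filter fun I : Input m k => Adm (bt y.2.1 y.2.2.1) (pt y.2.1 y.2.2.1) ∧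
      Cls B m t y.1 (bt y.2.1 y.2.2.1) (pt y.2.1 y.2.2.1) y.2.2.2 (look I) := ⟨_, rfl⟩
  have hcov : univ.filter S ⊆ (univ ×ˢ inner m).biUnion A1 ∪ univ.biUnion A2 := by
    intro I hI
    rw [Finset.mem_filter] at hI
    rw [Finset.mem_union, Finset.mem_biUnion, Finset.mem_biUnion]
    rcases hS I hI.2 with ⟨b, p, hp, h⟩ | ⟨q, l, d, o, h, h'⟩
    · left
      refine ⟨(b, p), by simpa using hp, ?_⟩
      rw [hA1]
      simpa using h
    · right
      refine ⟨(q, l, d, o), mem_univ _, ?_⟩
      rw [hA2]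
      simpa using ⟨h, h'⟩
  have hk : (0 : ℝ) < k := by
    have : 0 < k := Nat.pos_of_ne_zero (NeZero.ne k)
    exact_mod_cast this
  have hN0 : (0 : ℝ) ≤ N := Nat.cast_nonneg N
  have b1 : ∀ y ∈ (univ ×ˢ inner m : Finset (Bool × List Bool)),
      ((A1 y).card : ℝ) ≤ t / k * N := by
    rintro ⟨b, p⟩ hy
    have hp : p.length < m := mem_inner.1 (Finset.mem_product.1 hy).2
    have h := count_bad B t b hp
    have h' : ((A1 (b, p)).card : ℝ) * k ≤ t * N := by
      rw [hA1, hN]
      exact_mod_cast h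
    rw [div_mul_eq_mul_div, le_div_iff₀ hk]
    exact h'
  have b2 : ∀ y ∈ (univ : Finset (Q × List.Vector Bool m × (Fin m → Fin m) × (Fin m → Fin m))),
      ((A2 y).card : ℝ) ≤ (t / k) ^ m * N := by
    rintro ⟨q, l, d, o⟩ -
    by_cases ha : Adm (bt l d) (pt l d)
    · have h := count_cls B t q o ha
      have h' : ((A2 (q, l, d, o)).card : ℝ) * k ^ m ≤ t ^ m * N := by
        rw [hA2, hN]
        have h2 : (univ.filter fun I : Input m k => Adm (bt l d) (pt l d) ∧
            Cls B m t q (bt l d) (pt l d) o (look I)).card ≤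
            (univ.filter fun I : Input m k => Cls B m t q (bt l d) (pt l d) o (look I)).card := by
          refine Finset.card_le_card fun I hI => ?_
          rw [Finset.mem_filter] at hI ⊢
          exact ⟨hI.1, hI.2.2⟩
        have h3 := (Nat.mul_le_mul_right (k ^ m) h2).trans h
        exact_mod_cast h3
      rw [div_pow, div_mul_eq_mul_div, le_div_iff₀ (by positivity)]
      exact h'
    · have h0 : A2 (q, l, d, o) = ∅ := by
        rw [hA2]
        dsimp only
        rw [Finset.filter_eq_empty_iff]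
        rintro I - ⟨h1, -⟩
        exact ha h1
      rw [h0, Finset.card_empty, Nat.cast_zero]
      positivity
  have s1 : (((univ ×ˢ inner m).biUnion A1).card : ℝ) ≤ 2 * (2 ^ m - 1) * (t / k * N) := by
    calc (((univ ×ˢ inner m).biUnion A1).card : ℝ)
        ≤ ((∑ y ∈ univ ×ˢ inner m, (A1 y).card : ℕ) : ℝ) := by
          exact_mod_cast Finset.card_biUnion_le
      _ = ∑ y ∈ univ ×ˢ inner m, ((A1 y).card : ℝ) := by push_cast; rfl
      _ ≤ ∑ _y ∈ (univ ×ˢ inner m : Finset (Bool × List Bool)), (t / k * N : ℝ) :=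
          Finset.sum_le_sum b1
      _ = (2 * (inner m).card : ℕ) * (t / k * N : ℝ) := by
          rw [Finset.sum_const, Finset.card_product, Finset.card_univ, Fintype.card_bool,
            nsmul_eq_mul]
      _ ≤ 2 * (2 ^ m - 1) * (t / k * N) := by
          refine mul_le_mul_of_nonneg_right ?_ (by positivity)
          have h := card_inner m
          have h' : ((inner m).card : ℝ) + 1 ≤ 2 ^ m := by exact_mod_cast h
          push_cast
          linarith
  have s2 : ((univ.biUnion A2).card : ℝ) ≤ Fintype.card Q * (2 * m ^ 2 * t / k) ^ m * N := by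
    calc ((univ.biUnion A2).card : ℝ)
        ≤ ((∑ y, (A2 y).card : ℕ) : ℝ) := by
          exact_mod_cast Finset.card_biUnion_le
      _ = ∑ y, ((A2 y).card : ℝ) := by push_cast; rfl
      _ ≤ ∑ _y : Q × List.Vector Bool m × (Fin m → Fin m) × (Fin m → Fin m),
          ((t / k) ^ m * N : ℝ) := Finset.sum_le_sum b2
      _ = (Fintype.card Q * (2 ^ m * (m ^ m * m ^ m)) : ℕ) * ((t / k) ^ m * N : ℝ) := by
          rw [Finset.sum_const, Finset.card_univ, nsmul_eq_mul]
          simp [Fintype.card_prod]
      _ = Fintype.card Q * (2 * m ^ 2 * t / k) ^ m * N := by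
          push_cast
          rw [div_pow, div_pow, mul_pow, mul_pow, pow_two (m : ℝ), mul_pow]
          ring
  have hfin : ((univ.filter S).card : ℝ) ≤ ((univ ×ˢ inner m).biUnion A1).card +
        (univ.biUnion A2).card := by
    have h1 := Finset.card_le_card hcov
    have h3 := Finset.card_union_le ((univ ×ˢ inner m).biUnion A1) (univ.biUnion A2)
    exact_mod_cast h1.trans h3
  rw [← hN]
  have h5 : (0 : ℝ) ≤ t / k * N := by positivity
  have h6 : (2 : ℝ) ^ (m + 1) * t / k * N = 2 * 2 ^ m * (t / k * N) := by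
    rw [pow_succ]; ring
  rw [add_mul, h6]
  nlinarith

open Classical in
theorem main [Fintype Q] (B : NProg k Q) (g : Fin k → Prop) (hg : ∃ c, ¬ g c) (m t : ℕ)
    (hB : ∀ I : Input m k, B.Accepts (look I) → g (nodeValue m (look I) [])) :
    ((univ.filter fun I : Input m k => B.Accepts (look I) ∧ B.Frugal m t (look I)).card : ℝ) ≤
      (2 ^ (m + 1) * t / k + Fintype.card Q * (2 * m ^ 2 * t / k) ^ m) *
        Fintype.card (Input m k) :=
  main_gen B m t _ fun _ hI => cover hg hB hI.1 hI.2

end Pool.Agent.V8H86.TN
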